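import Pool.Agent.Run7.h759.UD.Coef

/-!
# Trivial coefficients: core
-/

set_option autoImplicit false

namespace Pool.Agent.Run7.h593.UD

open Subgroup Pool.Agent.Run7.h759.UD IntermediateField

theorem isGalois_Qb' : IsGalois ℚ Qb := by
  have h0 : Algebra.IsAlgebraic ℚ Qb := AlgebraicClosure.isAlgebraic ℚ
  have h1 : IsAlgClosed Qb := AlgebraicClosure.isAlgClosed ℚ
  have h2 : IsAlgClosure ℚ Qb := ⟨h1, h0⟩
  have h3 : Normal ℚ Qb := inferInstance
  exact ⟨⟩

theorem fixes_iff' {σ : Gal(Qb/ℚ)} {N : Fld} : Fixes σ N ↔ σ ∈ N.fixingSubgroup :=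
  (IntermediateField.mem_fixingSubgroup_iff _ _).symm

theorem card_dual (p : ℕ) [Fact p.Prime] (V : Type) [AddCommGroup V] [Module (ZMod p) V] [Module.Finite (ZMod p) V] :
   Nat.card (Module.Dual (ZMod p) V) = Nat.card V := 
  (Nat.card_congr (Module.finBasis (ZMod p) V).toDualEquiv.toEquiv).symm

/-- the number of the homomorphisms of a finite elementary abelian group to `ZMod p` -/
theorem card_hom (p : ℕ) [Fact p.Prime] (V : Type) [AddCommGroup V] [Finite V]
    (h : ∀ v : V, p • v = 0) : Nat.card (V →+ ZMod p) = Nat.card V := by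
  let _ : Module (ZMod p) V := AddCommGroup.zmodModule h
  have h1 : Nat.card (V →+ ZMod p) = Nat.card (Module.Dual (ZMod p) V) := by
    apply Nat.card_congr
    exact
      { toFun := fun f => AddMonoidHom.toZModLinearMap p f
        invFun := fun f => f.toAddMonoidHom
        left_inv := fun f => rfl
        right_inv := fun f => rfl }
  have hfin : Module.Finite (ZMod p) V := Module.Finite.of_finite
  rw [h1]
  exact @card_dual p _ V _ _ hfin

/-- a bound for the number of the locally trivial homomorphisms gives a bound for the degrees -/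
theorem absPart_of_shaLe {p : ℕ} [Fact p.Prime] {T : ValuationSubring Qb → Gal(Qb/ℚ) → Prop}
    {M : Fld} {C : ℕ} (h : ShaLe T M (ZMod p) (fun _ a => a) C) : AbsPart p T M C := by
  classical
  intro E hME hE hgal hcomm hexp hT
  have hEd : FiniteDimensional ℚ E := hE
  have hgalQ : IsGalois ℚ Qb := isGalois_Qb'
  set G := M.fixingSubgroup with hG
  set W := E.fixingSubgroup with hW
  have hWG : W ≤ G := IntermediateField.fixingSubgroup_le hME
  have hdeg : deg E = W.relIndex G * deg M := by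
    unfold deg
    rw [finrank_eq_fixingSubgroup_index Qb, finrank_eq_fixingSubgroup_index Qb,
      ← relIndex_mul_index hWG]
  have hpos : 0 < deg E := Module.finrank_pos
  have hrel : W.relIndex G ≠ 0 := by
    intro h0
    rw [hdeg, h0, zero_mul] at hpos
    exact lt_irrefl _ hpos
  have hnorm : (W.subgroupOf G).Normal := by
    refine ⟨fun n hn g => ?_⟩
    rw [Subgroup.mem_subgroupOf] at hn ⊢
    have h1 : Fixes (n : Gal(Qb/ℚ)) E := fixes_iff'.2 hn
    apply fixes_iff'.1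
    intro x hx
    have h2 : ((g : Gal(Qb/ℚ))⁻¹) x ∈ E :=
      hgal _ (fixes_iff'.2 (inv_mem g.2)) x hx
    have h3 := h1 _ h2
    show (g : Gal(Qb/ℚ)) ((n : Gal(Qb/ℚ)) (((g : Gal(Qb/ℚ))⁻¹) x)) = x
    rw [h3]
    show ((g : Gal(Qb/ℚ)) * (g : Gal(Qb/ℚ))⁻¹) x = x
    rw [mul_inv_cancel]
    rfl
  have hfin : Finite (G ⧸ W.subgroupOf G) := Nat.finite_of_card_ne_zero hrel
  have hmc : ∀ a b : G ⧸ W.subgroupOf G, a * b = b * a := by
    intro a b
    induction a using QuotientGroup.induction_on with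
    | H a =>
    induction b using QuotientGroup.induction_on with
    | H b =>
    rw [← QuotientGroup.mk_mul, ← QuotientGroup.mk_mul, QuotientGroup.eq,
      Subgroup.mem_subgroupOf]
    apply fixes_iff'.1
    intro x hx
    have h1 := hcomm (a : Gal(Qb/ℚ)) (b : Gal(Qb/ℚ)) (fixes_iff'.2 a.2) (fixes_iff'.2 b.2) x hx
    show (((a : Gal(Qb/ℚ)) * (b : Gal(Qb/ℚ)))⁻¹ * ((b : Gal(Qb/ℚ)) * (a : Gal(Qb/ℚ)))) x = x
    have h2 : ((b : Gal(Qb/ℚ)) * (a : Gal(Qb/ℚ))) x = ((a : Gal(Qb/ℚ)) * (b : Gal(Qb/ℚ))) x :=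
      h1.symm
    show (((a : Gal(Qb/ℚ)) * (b : Gal(Qb/ℚ)))⁻¹) (((b : Gal(Qb/ℚ)) * (a : Gal(Qb/ℚ))) x) = x
    rw [h2]
    show ((((a : Gal(Qb/ℚ)) * (b : Gal(Qb/ℚ)))⁻¹) * ((a : Gal(Qb/ℚ)) * (b : Gal(Qb/ℚ)))) x = x
    rw [inv_mul_cancel]
    rfl
  let _ : CommGroup (G ⧸ W.subgroupOf G) :=
    { (inferInstance : Group (G ⧸ W.subgroupOf G)) with mul_comm := hmc }
  have hp0 : ∀ v : Additive (G ⧸ W.subgroupOf G), p • v = 0 := by
    intro v
    have h1 : (v.toMul) ^ p = 1 := by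
      generalize v.toMul = w
      induction w using QuotientGroup.induction_on with
      | H a =>
      rw [← QuotientGroup.mk_pow, QuotientGroup.eq_one_iff, Subgroup.mem_subgroupOf]
      exact fixes_iff'.1 (hexp (a : Gal(Qb/ℚ)) (fixes_iff'.2 a.2))
    exact h1
  have hcard : Nat.card (Additive (G ⧸ W.subgroupOf G) →+ ZMod p) = W.relIndex G := by
    rw [card_hom p _ hp0]
    rfl
  let fn : (Additive (G ⧸ W.subgroupOf G) →+ ZMod p) → Gal(Qb/ℚ) → ZMod p := fun φ σ =>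
    if hσ : σ ∈ G then φ (Additive.ofMul (QuotientGroup.mk ⟨σ, hσ⟩)) else 0
  have fn_pos : ∀ φ σ (hσ : σ ∈ G), fn φ σ = φ (Additive.ofMul (QuotientGroup.mk ⟨σ, hσ⟩)) :=
    fun φ σ hσ => dif_pos hσ
  have fn_inj : Function.Injective fn := by
    intro φ ψ hφψ
    refine DFunLike.ext _ _ fun v => ?_
    obtain ⟨w, rfl⟩ : ∃ w : G, Additive.ofMul (QuotientGroup.mk w) = v :=
      ⟨(v.toMul).out, congrArg Additive.ofMul (QuotientGroup.out_eq' _)⟩
    have h1 := congrFun hφψ (w : Gal(Qb/ℚ))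
    rw [fn_pos φ w w.2, fn_pos ψ w w.2] at h1
    exact h1
  have hfinhom : Finite (Additive (G ⧸ W.subgroupOf G) →+ ZMod p) := by
    apply Nat.finite_of_card_ne_zero
    rw [hcard]
    exact hrel
  have hfty : Fintype (Additive (G ⧸ W.subgroupOf G) →+ ZMod p) := Fintype.ofFinite _
  have key := h (Finset.univ.image fn) ?_ ?_
  · rw [Finset.card_image_of_injective _ fn_inj, Finset.card_univ, ← Nat.card_eq_fintype_card,
      hcard] at key
    rw [hdeg]
    exact Nat.mul_le_mul_right _ key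
  · intro f hf
    obtain ⟨φ, -, rfl⟩ := Finset.mem_image.1 hf
    have hadd : ∀ σ τ (hσ : σ ∈ G) (hτ : τ ∈ G), fn φ (σ * τ) = fn φ σ + fn φ τ := by
      intro σ τ hσ hτ
      rw [fn_pos φ _ (mul_mem hσ hτ), fn_pos φ _ hσ, fn_pos φ _ hτ, ← map_add]
      rfl
    have hzero : ∀ σ, σ ∈ W → fn φ σ = 0 := by
      intro σ hσ
      rw [fn_pos φ σ (hWG hσ)]
      have h1 : (QuotientGroup.mk (⟨σ, hWG hσ⟩ : G) : G ⧸ W.subgroupOf G) = 1 := by
        rw [QuotientGroup.eq_one_iff, Subgroup.mem_subgroupOf]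
        exact hσ
      rw [h1]
      exact map_zero φ
    refine ⟨fun σ τ hσ hτ => hadd σ τ (fixes_iff'.1 hσ) (fixes_iff'.1 hτ),
      ⟨E, hE, hME, fun σ hσ => hzero σ (fixes_iff'.1 hσ)⟩, fun w => ⟨0, fun σ h1 h2 => ?_⟩⟩
    rw [sub_self]
    exact hzero σ (fixes_iff'.1 (hT w σ h1 h2))
  · intro f hf g hg hfg
    obtain ⟨φ, -, rfl⟩ := Finset.mem_image.1 hf
    obtain ⟨ψ, -, rfl⟩ := Finset.mem_image.1 hg
    obtain ⟨a, ha⟩ := hfg
    funext σ
    by_cases hσ : σ ∈ G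
    · have h1 := ha σ (fixes_iff'.2 hσ)
      rw [sub_self] at h1
      exact sub_eq_zero.1 h1
    · show (if hσ : σ ∈ G then φ (Additive.ofMul (QuotientGroup.mk ⟨σ, hσ⟩)) else 0) =
        (if hσ : σ ∈ G then ψ (Additive.ofMul (QuotientGroup.mk ⟨σ, hσ⟩)) else 0)
      rw [dif_neg hσ, dif_neg hσ]

/-- **U2**, core form -/
theorem U2_core (p : ℕ) [Fact p.Prime] (T : ValuationSubring Qb → Gal(Qb/ℚ) → Prop)
    (F : Fld) (h : ShaBounded p T F (ZMod p) (fun _ a => a)) : MuNull p T F := by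
  obtain ⟨C, hC⟩ := h
  exact ⟨C, fun n R hR => absPart_of_shaLe (hC n R hR)⟩

end Pool.Agent.Run7.h593.UD
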