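import Pool.Agent.Run7.h759.UD.IfaceC
import Pool.Agent.Run7.h593.UD.U2c

/-!
# Piece U2: trivial coefficients
-/

set_option autoImplicit false

namespace Pool.Agent.Run7.h593.UD

open Pool.Agent.Run7.h759.UD

/-- **U2** -/
theorem t_U2 : S_triv := fun p _ T F _ h => U2_core p T F h

end Pool.Agent.Run7.h593.UD
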